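import Pool.Agent.L5helper76.Sync.Main

/-!
# The rigid synchrony conjecture

All definitions (`Network`, `Network.InputIso`, `Network.State`, `Same`, `IsAdmissible`,
`IsPeriodicOrbit`, `IsHyperbolic`, `Pattern`, `IsRigid`, `IsBalanced`) are in
`Pool/Agent/L5helper76/Sync/Defs.lean`.

Idea of the proof. Among all the admissible vector fields near `f`, all periodic orbits near `x` and
all times choose a configuration with the maximal number of moving nodes plus pairs of nodes with
different states. This configuration is stable under small perturbations and small changes of time.
By the implicit function theorem the response of the periodic orbit to an admissible perturbation `g` is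
bounded by the integral of `g` along the orbit. If a synchronous pair were not input isomorphic
with equal local states, a localized perturbation would give a lower bound for this response at
every nearby time; disjoint localizations show that the local state takes finitely many values only,
so it is locally constant and the nodes are at rest. The nodes at rest are treated with a dimension
count. So the synchrony relation of the chosen configuration is balanced. It is then flow
invariant, and rigidity shows that it is the pattern of `x`.
-/

namespace Pool.Agent.Results.MP_e1010f_an.RigidSynchrony

open Pool.Agent.L5helper76.Sync

/-- Rigid synchrony patterns of hyperbolic periodic orbits are balanced. -/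
theorem result (N A S K Z : Type) [Fintype N] [DecidableEq N] [Fintype A]
    (G : Network N A S K Z) (P : Z → Type)
    [∀ τ, NormedAddCommGroup (P τ)] [∀ τ, NormedSpace ℝ (P τ)]
    [∀ τ, FiniteDimensional ℝ (P τ)] [∀ τ, Nontrivial (P τ)] (sm : Prop)
    (f : G.State P → G.State P) (x : ℝ → G.State P) (T : ℝ)
    (hf : IsAdmissible G P sm f) (hx : IsPeriodicOrbit f x T) (hh : IsHyperbolic f x T)
    (hr : IsRigid G P sm f x T) :
    IsBalanced G (Pattern G x) :=
  rigid_balanced G P sm f hf x T hx hh hr

end Pool.Agent.Results.MP_e1010f_an.RigidSynchrony
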